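import Pool.Agent.Run7.h991.MU.Iface

set_option autoImplicit false

open MeasureTheory Metric Topology

namespace Pool.Agent.Run7.h279.MU
open H991.MU

/-- division by the zeros -/
lemma factor (c : ℂ) (r : ℝ) (g : ℂ → ℂ) (Z : Finset ℂ)
    (hd : DifferentiableOn ℂ g (ball c r)) (hZ : ∀ a ∈ Z, a ∈ ball c r ∧ g a = 0) :
    ∃ h : ℂ → ℂ, DifferentiableOn ℂ h (ball c r) ∧ ∀ z, g z = (∏ a ∈ Z, (z - a)) * h z := by
  classical
  induction Z using Finset.induction_on with
  | empty => exact ⟨g, hd, fun z => by simp⟩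
  | insert a Z ha ih =>
    obtain ⟨h, hh, hg⟩ := ih (fun b hb => hZ b (Finset.mem_insert_of_mem hb))
    obtain ⟨ha1, ha2⟩ := hZ a (Finset.mem_insert_self _ _)
    have hne : (∏ b ∈ Z, (a - b)) ≠ 0 := by
      rw [Finset.prod_ne_zero_iff]
      intro b hb
      rw [sub_ne_zero]
      rintro rfl
      exact ha hb
    have hha : h a = 0 := by
      have := hg a
      rw [ha2] at this
      exact (mul_eq_zero.1 this.symm).resolve_left hne
    refine ⟨dslope h a, (Complex.differentiableOn_dslope (isOpen_ball.mem_nhds ha1)).2 hh, ?_⟩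
    intro z
    rw [Finset.prod_insert ha, hg z]
    have := sub_smul_dslope h a z
    rw [hha, sub_zero, smul_eq_mul] at this
    rw [← this]
    ring

theorem t_ZER : S_ZER := by
  intro ρ M c g Z hρ hM hd hb hZ z hz
  obtain ⟨h, hh, hg⟩ := factor c (8 * ρ) g Z hd (fun a ha =>
    ⟨closedBall_subset_ball (by linarith) (hZ a ha).1, (hZ a ha).2⟩)
  have hcl : closedBall c (5 * ρ) ⊆ ball c (8 * ρ) := closedBall_subset_ball (by linarith)
  have hmax : ‖h z‖ ≤ M / (4 * ρ) ^ Z.card := by
    refine Complex.norm_le_of_forall_mem_frontier_norm_le (U := ball c (5 * ρ)) isBounded_ball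
      ?_ ?_ ?_
    · refine ⟨hh.mono (ball_subset_ball (by linarith)), ?_⟩
      rw [closure_ball c (by linarith : (5 * ρ) ≠ 0)]
      exact (hh.mono hcl).continuousOn
    · intro w hw
      rw [frontier_ball c (by linarith : (5 * ρ) ≠ 0)] at hw
      have hw1 : w ∈ ball c (8 * ρ) := hcl (sphere_subset_closedBall hw)
      have h1 := hb w hw1
      rw [hg w, norm_mul, norm_prod] at h1
      have h2 : (4 * ρ) ^ Z.card ≤ ∏ a ∈ Z, ‖w - a‖ := by
        rw [← Finset.prod_const]
        apply Finset.prod_le_prod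
        · intro a _; linarith
        · intro a ha
          have h3 := (hZ a ha).1
          rw [mem_closedBall, dist_eq_norm] at h3
          rw [mem_sphere, dist_eq_norm] at hw
          have h4 : w - c = (w - a) + (a - c) := by ring
          have h5 := norm_add_le (w - a) (a - c)
          rw [← h4, hw] at h5
          linarith
      rw [le_div_iff₀ (by positivity)]
      calc ‖h w‖ * (4 * ρ) ^ Z.card ≤ ‖h w‖ * ∏ a ∈ Z, ‖w - a‖ :=
            mul_le_mul_of_nonneg_left h2 (norm_nonneg _)
        _ = (∏ a ∈ Z, ‖w - a‖) * ‖h w‖ := mul_comm _ _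
        _ ≤ M := h1
    · rw [closure_ball c (by linarith : (5 * ρ) ≠ 0)]
      exact closedBall_subset_closedBall (by linarith) hz
  rw [hg z, norm_mul, norm_prod]
  have h2 : ∏ a ∈ Z, ‖z - a‖ ≤ (2 * ρ) ^ Z.card := by
    rw [← Finset.prod_const]
    apply Finset.prod_le_prod
    · intro a _; exact norm_nonneg _
    · intro a ha
      have h3 := (hZ a ha).1
      rw [mem_closedBall, dist_eq_norm] at h3 hz
      have h4 : z - a = (z - c) - (a - c) := by ring
      rw [h4]
      have h5 := norm_sub_le (z - c) (a - c)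
      linarith
  calc (∏ a ∈ Z, ‖z - a‖) * ‖h z‖ ≤ (2 * ρ) ^ Z.card * (M / (4 * ρ) ^ Z.card) :=
        mul_le_mul h2 hmax (norm_nonneg _) (by positivity)
    _ = M * (1 / 2) ^ Z.card := by
        rw [one_div, inv_pow, mul_pow, mul_pow]
        have e1 : (4 : ℝ) ^ Z.card = 2 ^ Z.card * 2 ^ Z.card := by
          rw [← mul_pow]; norm_num
        rw [e1]
        have h6 : (ρ : ℝ) ^ Z.card ≠ 0 := by positivity
        have h7 : (2 : ℝ) ^ Z.card ≠ 0 := by positivity
        field_simp

end Pool.Agent.Run7.h279.MU
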